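import Pool.Agent.Results.MP_110f0a_gt.SequentialFrechet

/-!
# Spaces of continuous functions with zero-dimensional targets
-/

set_option autoImplicit false

namespace Pool.Agent.Y495.CP

open Filter Topology Set

universe u v

/-- continuous maps with the topology of pointwise convergence -/
abbrev Cp (X : Type u) (Z : Type v) [TopologicalSpace X] [TopologicalSpace Z] : Type (max u v) :=
  {f : X → Z // Continuous f}

/-- covering property -/
def ClopenGamma (X : Type u) [TopologicalSpace X] : Prop :=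
  ∀ 𝒰 : Set (Set X), (∀ U ∈ 𝒰, IsClopen U) → (∀ F : Finset X, ∃ U ∈ 𝒰, ∀ x ∈ F, x ∈ U) →
    ∃ U : ℕ → Set X, (∀ n, U n ∈ 𝒰) ∧ ∀ x, ∀ᶠ n in atTop, x ∈ U n

/-- selection property -/
def ClopenSelect (X : Type u) [TopologicalSpace X] : Prop :=
  ∀ 𝒰 : ℕ → Set (Set X), (∀ n, ∀ U ∈ 𝒰 n, IsClopen U) →
    (∀ n, ∀ F : Finset X, ∃ U ∈ 𝒰 n, ∀ x ∈ F, x ∈ U) →
    ∃ U : ℕ → Set X, (∀ n, U n ∈ 𝒰 n) ∧ ∀ x, ∀ᶠ n in atTop, x ∈ U n

section

variable {X : Type u} [TopologicalSpace X]

/-- not separated by clopen sets -/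
def Eqv (x y : X) : Prop := ∀ U : Set X, IsClopen U → (x ∈ U ↔ y ∈ U)

lemma Eqv.symm {x y : X} (h : Eqv x y) : Eqv y x := fun U hU => (h U hU).symm

lemma Eqv.trans {x y z : X} (h : Eqv x y) (h' : Eqv y z) : Eqv x z :=
  fun U hU => (h U hU).trans (h' U hU)

lemma sep {x y : X} (h : ¬ Eqv x y) : ∃ W : Set X, IsClopen W ∧ y ∈ W ∧ x ∉ W := by
  unfold Eqv at h
  push Not at h
  obtain ⟨U, hU, h | h⟩ := h
  · exact ⟨Uᶜ, hU.compl, h.2, fun h' => h' h.1⟩
  · exact ⟨U, hU, h.2, h.1⟩

theorem select_of_gamma (h : ClopenGamma X) : ClopenSelect X := by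
  classical
  intro 𝒰 hcl hom
  by_cases hfin : ∃ F₀ : Finset X, ∀ y, ∃ x ∈ F₀, Eqv x y
  · obtain ⟨F₀, hF₀⟩ := hfin
    choose U hU hUF using fun n => hom n F₀
    refine ⟨U, hU, fun y => Eventually.of_forall fun n => ?_⟩
    obtain ⟨x, hx, hxy⟩ := hF₀ y
    exact (hxy (U n) (hcl n _ (hU n))).1 (hUF n x hx)
  · push Not at hfin
    obtain ⟨p, -, hp⟩ := exists_seq_of_forall_finset_exists (fun _ : X => True)
      (fun x y => ¬ Eqv x y) (fun s _ => by
        obtain ⟨y, hy⟩ := hfin s
        exact ⟨y, trivial, hy⟩)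
    have hne : ∀ m n, m ≠ n → ¬ Eqv (p m) (p n) := by
      intro m n hmn
      rcases lt_or_gt_of_ne hmn with h1 | h1
      · exact hp m n h1
      · exact fun h2 => hp n m h1 h2.symm
    let 𝒱 : Set (Set X) := {V | ∃ (n : ℕ) (W : Set X) (U : ℕ → Set X), IsClopen W ∧ p n ∉ W ∧
      (∀ i, U i ∈ 𝒰 i) ∧ V = W ∩ ⋂ i ∈ Finset.range (n + 1), U i}
    have h1 : ∀ V ∈ 𝒱, IsClopen V := by
      rintro V ⟨n, W, U, hW, -, hU, rfl⟩
      exact hW.inter (isClopen_biInter_finset fun i _ => hcl i _ (hU i))
    have h2 : ∀ F : Finset X, ∃ V ∈ 𝒱, ∀ x ∈ F, x ∈ V := by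
      intro F
      have h3 : ∃ n, ∀ y ∈ F, ¬ Eqv (p n) y := by
        by_contra hcon
        push Not at hcon
        choose y hy hyp using hcon
        obtain ⟨m, n, hmn, hmn'⟩ := Finite.exists_ne_map_eq_of_infinite
          (fun n => (⟨y n, hy n⟩ : F))
        have h4 : y m = y n := congrArg Subtype.val hmn'
        exact hne m n hmn ((hyp m).trans (h4 ▸ (hyp n).symm))
      obtain ⟨n, hn⟩ := h3
      have h4 : ∀ y : X, ∃ W : Set X, y ∈ F → IsClopen W ∧ y ∈ W ∧ p n ∉ W := by
        intro y
        by_cases hy : y ∈ F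
        · obtain ⟨W, hW⟩ := sep (hn y hy)
          exact ⟨W, fun _ => hW⟩
        · exact ⟨∅, fun h => absurd h hy⟩
      choose W hW using h4
      choose U hU hUF using fun i => hom i F
      refine ⟨_, ⟨n, ⋃ y ∈ F, W y, U, ?_, ?_, hU, rfl⟩, ?_⟩
      · exact isClopen_biUnion_finset fun y hy => (hW y hy).1
      · intro hmem
        simp only [mem_iUnion] at hmem
        obtain ⟨y, hy, hmem⟩ := hmem
        exact (hW y hy).2.2 hmem
      · intro x hx
        refine ⟨?_, ?_⟩
        · simp only [mem_iUnion]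
          exact ⟨x, hx, (hW x hx).2.1⟩
        · simp only [mem_iInter]
          exact fun i _ => hUF i x hx
    obtain ⟨V, hV, hVx⟩ := h 𝒱 h1 h2
    choose n W U hW hWp hU hVU using hV
    have h3 : ∀ N, ∀ᶠ k in atTop, N ≤ n k := by
      intro N
      have h4 : ∀ᶠ k in atTop, ∀ m ∈ Finset.range N, p m ∈ V k :=
        (Finset.eventually_all (Finset.range N)).2 fun m _ => hVx (p m)
      filter_upwards [h4] with k hk
      by_contra hlt
      rw [not_le] at hlt
      have h5 := hk (n k) (Finset.mem_range.2 hlt)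
      rw [hVU k] at h5
      exact hWp k h5.1
    obtain ⟨φ, hφ, hφn⟩ := extraction_forall_of_eventually h3
    refine ⟨fun j => U (φ j) j, fun j => hU (φ j) j, fun x => ?_⟩
    have h4 := hφ.tendsto_atTop.eventually (hVx x)
    filter_upwards [h4] with j hj
    rw [hVU (φ j)] at hj
    have h5 := hj.2
    simp only [mem_iInter] at h5
    exact h5 j (Finset.mem_range.2 (Nat.lt_succ_of_le (hφn j)))

theorem gamma_of_select (h : ClopenSelect X) : ClopenGamma X := by
  intro 𝒰 hcl hom
  exact h (fun _ => 𝒰) (fun _ => hcl) (fun _ => hom)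

/-- the general target -/
theorem fu_of_select (h : ClopenSelect X) {Z : Type v} [TopologicalSpace Z]
    (E : ℕ → Set (Z × Z)) (hE : ∀ n, IsClopen (E n))
    (hb : ∀ z : Z, (𝓝 z).HasAntitoneBasis (fun n => {w | (w, z) ∈ E n})) :
    FrechetUrysohnSpace (Cp X Z) := by
  classical
  refine ⟨fun s f hf => ?_⟩
  have hcont : ∀ x : X, Continuous fun g : Cp X Z => g.1 x := fun x =>
    (continuous_apply x).comp continuous_subtype_val
  obtain ⟨U, hU, hUx⟩ := h (fun n => {U | ∃ g ∈ s, U = {x | ((g : Cp X Z).1 x, f.1 x) ∈ E n}}) (by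
      rintro n _ ⟨g, -, rfl⟩
      exact (hE n).preimage (g.2.prodMk f.2)) (by
      intro n F
      have h1 : ∀ᶠ g in 𝓝 f, ∀ x ∈ F, (g.1 x, f.1 x) ∈ E n := by
        refine (Finset.eventually_all F).2 fun x _ => ?_
        exact (hcont x).continuousAt.eventually ((hb (f.1 x)).1.mem_of_mem trivial)
      obtain ⟨g, hg, hgs⟩ := (mem_closure_iff_frequently.1 hf).and_eventually h1 |>.exists
      exact ⟨_, ⟨g, hg, rfl⟩, hgs⟩)
  choose g hg hgU using hU
  refine ⟨g, hg, ?_⟩
  rw [tendsto_subtype_rng, tendsto_pi_nhds]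
  intro x
  rw [(hb (f.1 x)).1.tendsto_right_iff]
  intro m _
  filter_upwards [hUx x, eventually_ge_atTop m] with n hn hmn
  rw [hgU n] at hn
  exact (hb (f.1 x)).2 hmn hn

theorem fu_ultra (h : ClopenSelect X) (Z : Type v) [PseudoMetricSpace Z] [IsUltrametricDist Z] :
    FrechetUrysohnSpace (Cp X Z) := by
  refine fu_of_select h (fun n => {p : Z × Z | dist p.1 p.2 < 1 / ((n : ℝ) + 1)}) ?_ ?_
  · intro n
    have hr : (0 : ℝ) < 1 / ((n : ℝ) + 1) := by positivity
    refine ⟨?_, isOpen_lt (continuous_fst.dist continuous_snd) continuous_const⟩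
    rw [← isOpen_compl_iff, Metric.isOpen_iff]
    rintro ⟨a, b⟩ hab
    refine ⟨1 / ((n : ℝ) + 1), hr, ?_⟩
    rintro ⟨a', b'⟩ hab' hlt
    have h0 : dist (a', b') (a, b) < 1 / ((n : ℝ) + 1) := hab'
    rw [Prod.dist_eq, max_lt_iff] at h0
    have h1 : dist a' a < 1 / ((n : ℝ) + 1) := h0.1
    have h2 : dist b' b < 1 / ((n : ℝ) + 1) := h0.2
    have h3 : dist a' b' < 1 / ((n : ℝ) + 1) := hlt
    apply hab
    show dist a b < 1 / ((n : ℝ) + 1)
    calc dist a b ≤ max (dist a a') (dist a' b) := dist_triangle_max a a' b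
      _ ≤ max (dist a a') (max (dist a' b') (dist b' b)) :=
          max_le_max_left _ (dist_triangle_max a' b' b)
      _ < 1 / ((n : ℝ) + 1) := by
          rw [max_lt_iff, max_lt_iff, dist_comm a a']
          exact ⟨h1, h3, h2⟩
  · intro z
    refine ⟨Metric.nhds_basis_ball_inv_nat_succ, ?_⟩
    intro m n hmn w hw
    have h1 : dist w z < 1 / ((n : ℝ) + 1) := hw
    show dist w z < 1 / ((m : ℝ) + 1)
    exact h1.trans_le (Nat.one_div_le_one_div hmn)

/-- countable powers -/
theorem fu_power (h : ClopenSelect X) : FrechetUrysohnSpace (ℕ → Cp X Bool) := by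
  classical
  refine ⟨fun s f hf => ?_⟩
  have hcont : ∀ (i : ℕ) (x : X), Continuous fun g : ℕ → Cp X Bool => (g i).1 x := fun i x =>
    (continuous_apply x).comp (continuous_subtype_val.comp (continuous_apply i))
  obtain ⟨U, hU, hUx⟩ := h (fun n => {U | ∃ g ∈ s, U = ⋂ i ∈ Finset.range n,
      {x | ((g : ℕ → Cp X Bool) i).1 x = (f i).1 x}}) (by
      rintro n _ ⟨g, -, rfl⟩
      refine isClopen_biInter_finset fun i _ => ?_
      exact (isClopen_discrete {p : Bool × Bool | p.1 = p.2}).preimage ((g i).2.prodMk (f i).2)) (by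
      intro n F
      have h1 : ∀ᶠ g in 𝓝 f, ∀ x ∈ F, ∀ i ∈ Finset.range n, (g i).1 x = (f i).1 x := by
        refine (Finset.eventually_all F).2 fun x _ => ?_
        refine (Finset.eventually_all (Finset.range n)).2 fun i _ => ?_
        have h2 := (hcont i x).tendsto f
        rw [nhds_discrete Bool, tendsto_pure] at h2
        exact h2
      obtain ⟨g, hg, hgs⟩ := (mem_closure_iff_frequently.1 hf).and_eventually h1 |>.exists
      refine ⟨_, ⟨g, hg, rfl⟩, fun x hx => ?_⟩
      simp only [mem_iInter]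
      exact fun i hi => hgs x hx i hi)
  choose g hg hgU using hU
  refine ⟨g, hg, ?_⟩
  rw [tendsto_pi_nhds]
  intro i
  rw [tendsto_subtype_rng, tendsto_pi_nhds]
  intro x
  rw [nhds_discrete, tendsto_pure]
  filter_upwards [hUx x, eventually_gt_atTop i] with n hn hin
  rw [hgU n] at hn
  simp only [mem_iInter] at hn
  exact hn i (Finset.mem_range.2 hin)

theorem gamma_of_fu (h : FrechetUrysohnSpace (Cp X Bool)) : ClopenGamma X := by
  classical
  intro 𝒰 hcl hom
  let s : Set (Cp X Bool) := {f | {x | f.1 x = true} ∈ 𝒰}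
  let one : Cp X Bool := ⟨fun _ => true, continuous_const⟩
  have hmem : one ∈ closure s := by
    rw [mem_closure_iff_nhds]
    intro t ht
    rw [nhds_subtype_eq_comap, mem_comap] at ht
    obtain ⟨t', ht', htt'⟩ := ht
    rw [nhds_pi, Filter.mem_pi] at ht'
    obtain ⟨I, hI, V, hV, hIV⟩ := ht'
    obtain ⟨U, hU, hUI⟩ := hom hI.toFinset
    have hc : Continuous fun x => decide (x ∈ U) := by
      rw [continuous_discrete_rng]
      intro b
      have hU' := hcl U hU
      cases b
      · have h1 : (fun x => decide (x ∈ U)) ⁻¹' {false} = Uᶜ := by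
          ext x
          simp
        rw [h1]
        exact hU'.compl.isOpen
      · have h1 : (fun x => decide (x ∈ U)) ⁻¹' {true} = U := by
          ext x
          simp
        rw [h1]
        exact hU'.isOpen
    refine ⟨⟨fun x => decide (x ∈ U), hc⟩, htt' (hIV fun x hx => ?_), ?_⟩
    · have h1 : decide (x ∈ U) = true := decide_eq_true (hUI x (hI.mem_toFinset.2 hx))
      show decide (x ∈ U) ∈ V x
      rw [h1]
      exact mem_of_mem_nhds (hV x)
    · show {x | decide (x ∈ U) = true} ∈ 𝒰
      have h1 : {x | decide (x ∈ U) = true} = U := by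
        ext x
        simp
      rw [h1]
      exact hU
  obtain ⟨u, hu, hlim⟩ := mem_closure_iff_seq_limit.1 hmem
  refine ⟨fun n => {x | (u n).1 x = true}, hu, fun x => ?_⟩
  rw [tendsto_subtype_rng, tendsto_pi_nhds] at hlim
  have h1 := hlim x
  rw [nhds_discrete, tendsto_pure] at h1
  exact h1

/-- closed subspaces of sequential spaces -/
theorem seq_closed {Y Z : Type*} [TopologicalSpace Y] [TopologicalSpace Z] {i : Y → Z}
    (hi : IsClosedEmbedding i) (h : SequentialSpace Z) : SequentialSpace Y := by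
  refine ⟨fun s hs => ?_⟩
  have h1 : IsSeqClosed (i '' s) := by
    intro x z hx hz
    have hz' : z ∈ range i := hi.isClosed_range.mem_of_tendsto hz
      (Eventually.of_forall fun n => image_subset_range i s (hx n))
    obtain ⟨y, rfl⟩ := hz'
    choose w hw hwx using hx
    have h2 : Tendsto w atTop (𝓝 y) := by
      rw [hi.isInducing.tendsto_nhds_iff]
      have h3 : i ∘ w = x := funext hwx
      rw [h3]
      exact hz
    exact ⟨y, hs hw h2, rfl⟩
  have h2 : IsClosed (i '' s) := h1.isClosed
  have h3 := h2.preimage hi.continuous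
  rwa [preimage_image_eq s hi.injective] at h3

end

/-- The discrete metric, with distances `0` and `1`. -/
@[reducible] noncomputable def disc (Z : Type v) : MetricSpace Z := by
  classical
  exact
  { dist := fun a b => if a = b then 0 else 1
    dist_self := fun a => if_pos rfl
    dist_comm := fun a b => by
      by_cases h : a = b
      · rw [if_pos h, if_pos h.symm]
      · rw [if_neg h, if_neg (Ne.symm h)]
    dist_triangle := fun a b c => by
      show (if a = c then (0 : ℝ) else 1) ≤ (if a = b then 0 else 1) + (if b = c then 0 else 1)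
      by_cases h1 : a = b
      · rw [if_pos h1, h1, zero_add]
      · rw [if_neg h1]
        split_ifs <;> norm_num
    eq_of_dist_eq_zero := fun {a b} h => by
      by_contra hne
      have h1 : (if a = b then (0 : ℝ) else 1) = 0 := h
      rw [if_neg hne] at h1
      exact one_ne_zero h1 }

/-- the discrete space with two points, in any universe -/
def Two : Type v := ULift.{v} Bool

noncomputable instance : MetricSpace Two.{v} := disc _

instance : Nontrivial Two.{v} := inferInstanceAs (Nontrivial (ULift.{v} Bool))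

instance : IsUltrametricDist Two.{v} := by
  classical
  refine ⟨fun a b c => ?_⟩
  show (if a = c then (0 : ℝ) else 1) ≤ max (if a = b then 0 else 1) (if b = c then 0 else 1)
  by_cases h1 : a = b
  · rw [if_pos h1, h1]
    exact le_max_right _ _
  · rw [if_neg h1]
    refine le_trans ?_ (le_max_left _ _)
    split_ifs <;> norm_num

theorem exists_target (X : Type u) [TopologicalSpace X]
    (h : ∀ (Z : Type v) [MetricSpace Z] [IsUltrametricDist Z], FrechetUrysohnSpace (Cp X Z)) :
    ∃ (Z : Type v) (_ : TopologicalSpace Z), T1Space Z ∧ Nontrivial Z ∧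
        SequentialSpace (Cp X Z) := by
  haveI := h Two.{v}
  exact ⟨Two.{v}, inferInstance, inferInstance, inferInstance, inferInstance⟩

theorem seq_two (X : Type u) [TopologicalSpace X] (Z : Type v) [TopologicalSpace Z] [T1Space Z]
    [Nontrivial Z] (hs : SequentialSpace (Cp X Z)) : SequentialSpace (Cp X Bool) := by
  classical
  obtain ⟨a, b, hab⟩ := exists_pair_ne Z
  let j : Bool → Z := fun t => if t = true then a else b
  have hj : Function.Injective j := by
    intro s t hst
    cases s <;> cases t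
    · rfl
    · exact absurd hst.symm hab
    · exact absurd hst hab
    · rfl
  have hjc : Continuous j := continuous_of_discreteTopology
  have hjcl : IsClosedEmbedding j := by
    refine IsClosedEmbedding.of_continuous_injective_isClosedMap hjc hj ?_
    intro s _
    exact (s.toFinite.image j).isClosed
  have hemb : IsClosedEmbedding fun f : X → Bool => fun x => j (f x) :=
    IsClosedEmbedding.piMap fun _ => hjcl
  refine seq_closed (i := fun f : Cp X Bool =>
    (⟨fun x => j (f.1 x), hjc.comp f.2⟩ : Cp X Z)) ⟨⟨⟨?_⟩, ?_⟩, ?_⟩ hs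
  · show TopologicalSpace.induced Subtype.val _ =
      TopologicalSpace.induced _ (TopologicalSpace.induced Subtype.val _)
    rw [induced_compose, hemb.eq_induced, induced_compose]
    rfl
  · intro f g hfg
    apply Subtype.ext
    apply hemb.injective
    exact congrArg Subtype.val hfg
  · have h1 : range (fun f : Cp X Bool => (⟨fun x => j (f.1 x), hjc.comp f.2⟩ : Cp X Z)) =
        Subtype.val ⁻¹' (range fun f : X → Bool => fun x => j (f x)) := by
      ext g
      constructor
      · rintro ⟨f, rfl⟩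
        exact ⟨f.1, rfl⟩
      · rintro ⟨f, hf⟩
        have hf' : (fun x => j (f x)) = g.1 := hf
        have hfc : Continuous f := by
          rw [hjcl.isInducing.continuous_iff]
          show Continuous fun x => j (f x)
          rw [hf']
          exact g.2
        exact ⟨⟨f, hfc⟩, Subtype.ext hf'⟩
    rw [h1]
    exact hemb.isClosed_range.preimage continuous_subtype_val

theorem seq_power (X : Type u) [TopologicalSpace X] (h : FrechetUrysohnSpace (ℕ → Cp X Bool)) :
    SequentialSpace (Cp X Bool) := by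
  refine seq_closed (i := fun (f : Cp X Bool) (_ : ℕ) => f) ⟨?_, ?_⟩ inferInstance
  · exact IsEmbedding.of_leftInverse (f := fun g : ℕ → Cp X Bool => g 0) (fun f => rfl)
      (continuous_apply 0) (continuous_pi fun _ => continuous_id)
  · have h1 : range (fun (f : Cp X Bool) (_ : ℕ) => f) = ⋂ n, {g | g n = g 0} := by
      ext g
      rw [mem_iInter]
      constructor
      · rintro ⟨f, rfl⟩
        exact fun n => rfl
      · intro hg
        exact ⟨g 0, funext fun n => (hg n).symm⟩
    rw [h1]
    exact isClosed_iInter fun n => isClosed_eq (continuous_apply n) (continuous_apply 0)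

end Pool.Agent.Y495.CP
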